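import Pool.Agent.Helper70.OB.Goals

open MeasureTheory Set Metric Filter
open scoped ENNReal Topology
open Pool.Agent.Results.MP_91ee6f_gt
open Pool.Agent.Helper70.MM (om om_zero om_one om_succ_succ om_rel om_pos om_hasDerivAt om_le
  om_measurable)
open Pool.Agent.Helper70.OB

namespace Pool.Agent.Helper5.OB

lemma om_nonneg0 (j : ℕ) {s : ℝ} (hs : 0 ≤ s) : 0 ≤ om j s := by
  rcases hs.lt_or_eq with h | h
  · exact (om_pos j h).le
  · subst h
    match j with
    | 0 => rw [om_zero]; exact (Real.exp_pos _).le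
    | 1 => rw [om_one]; simp
    | (j + 2) => rw [om_succ_succ]; simp

lemma cc_pos {n k : ℕ} (hnk : n + 1 = 2 * k) {j : ℕ} (hj : j < k) : 0 < cc n j := by
  unfold cc
  refine Finset.prod_pos fun i hi => ?_
  have h1 : i < j := Finset.mem_range.1 hi
  have h2 : (n : ℝ) + 1 = 2 * k := by exact_mod_cast hnk
  have h3 : (i : ℝ) + 1 ≤ j := by exact_mod_cast h1
  have h4 : (j : ℝ) + 1 ≤ k := by exact_mod_cast hj
  linarith

lemma cc_succ (n j : ℕ) : cc n (j + 1) = cc n j * ((n : ℝ) - 1 - 2 * j) := by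
  unfold cc
  rw [Finset.prod_range_succ]

lemma gj_nonneg {n : ℕ} (τ : Measure (En n)) (e : En n) (j : ℕ) (r : ℝ) : 0 ≤ gj τ e j r :=
  integral_nonneg fun _ => om_nonneg0 j dist_nonneg

lemma mm_mono {n : ℕ} (τ : Measure (En n)) [IsFiniteMeasure τ] : Monotone (mm τ) := by
  intro a b hab
  unfold mm
  refine mul_le_mul_of_nonneg_left ?_ (by positivity)
  exact measureReal_mono (ball_subset_ball hab)

lemma mm_left {n : ℕ} (τ : Measure (En n)) [IsFiniteMeasure τ] (r : ℝ) :
    ContinuousWithinAt (mm τ) (Iic r) r := by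
  have hmono := mm_mono τ
  -- sequence
  have hU : ⋃ i : ℕ, ball (0 : En n) (r - 1 / ((i : ℝ) + 1)) = ball 0 r := by
    ext x
    simp only [mem_iUnion, mem_ball]
    constructor
    · rintro ⟨i, hi⟩
      have : (0 : ℝ) < 1 / ((i : ℝ) + 1) := by positivity
      linarith
    · intro hx
      obtain ⟨i, hi⟩ := exists_nat_one_div_lt (sub_pos.2 hx)
      exact ⟨i, by linarith⟩
  have hT : Tendsto (fun i : ℕ => τ (ball (0 : En n) (r - 1 / ((i : ℝ) + 1)))) atTop
      (𝓝 (τ (ball 0 r))) := by
    rw [← hU]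
    refine tendsto_measure_iUnion_atTop ?_
    intro i j hij
    refine ball_subset_ball ?_
    have h1 : (i : ℝ) ≤ j := by exact_mod_cast hij
    have h2 : (1 : ℝ) / ((j : ℝ) + 1) ≤ 1 / ((i : ℝ) + 1) :=
      one_div_le_one_div_of_le (by positivity) (by linarith)
    linarith
  have hR : Tendsto (fun i : ℕ => mm τ (r - 1 / ((i : ℝ) + 1))) atTop (𝓝 (mm τ r)) := by
    unfold mm
    refine Tendsto.const_mul _ ?_
    exact (ENNReal.tendsto_toReal (measure_ne_top τ _)).comp hT
  refine tendsto_order.2 ⟨fun a ha => ?_, fun a ha => ?_⟩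
  · obtain ⟨i, hi⟩ := ((tendsto_order.1 hR).1 a ha).exists
    have hlt : r - 1 / ((i : ℝ) + 1) < r := by
      have : (0 : ℝ) < 1 / ((i : ℝ) + 1) := by positivity
      linarith
    have : Ioi (r - 1 / ((i : ℝ) + 1)) ∈ 𝓝[Iic r] r :=
      mem_nhdsWithin_of_mem_nhds (Ioi_mem_nhds hlt)
    filter_upwards [this] with t ht
    exact lt_of_lt_of_le hi (hmono (le_of_lt ht))
  · filter_upwards [self_mem_nhdsWithin] with t ht
    exact lt_of_le_of_lt (hmono ht) ha

lemma mm_zero {n : ℕ} (τ : Measure (En n)) [IsFiniteMeasure τ] (h0 : τ {0} = 0) :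
    Tendsto (mm τ) (𝓝[>] 0) (𝓝 0) := by
  have h := tendsto_measure_biInter_gt (μ := τ) (s := fun t : ℝ => ball (0 : En n) t) (a := 0)
    (fun r _ => measurableSet_ball.nullMeasurableSet)
    (fun i j _ hij => ball_subset_ball hij) ⟨1, one_pos, measure_ne_top τ _⟩
  have hI : ⋂ r > (0 : ℝ), ball (0 : En n) r = {0} := by
    ext x
    simp only [mem_iInter, mem_ball, dist_zero_right, mem_singleton_iff]
    constructor
    · intro hx
      by_contra hne
      have := hx ‖x‖ (norm_pos_iff.2 hne)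
      exact lt_irrefl _ this
    · rintro rfl r hr
      simpa using hr
  rw [hI, h0] at h
  have h2 := (ENNReal.tendsto_toReal ENNReal.zero_ne_top).comp h
  have h3 := h2.const_mul (((n - 1).factorial : ℝ))
  rw [ENNReal.toReal_zero, mul_zero] at h3
  exact h3

theorem mkc : OMI → CHN → MKC := by
  intro homi hchn n k hk hnk τ R hfin hrot hR h0 e he
  have hN : n - 1 = 2 * k - 2 := by omega
  have hnR : (n : ℝ) + 1 = 2 * k := by exact_mod_cast hnk
  have hc := hchn n k hk hnk τ hfin hrot e he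
  have hpint : ∀ j < k, ∀ r₁ r₂ : ℝ, 0 < r₁ → r₁ ≤ r₂ →
      IntervalIntegrable (fun t => PP k τ e j t / t ^ (2 * k - 2)) volume r₁ r₂ := by
    intro j hj r₁ r₂ h1 h2
    have h3 := (((hc j hj).2.2 r₁ r₂ h1 h2).1).const_mul (cc n j)
    rw [hN] at h3
    refine h3.congr ?_
    intro t _
    simp only [PP]
    ring
  have hder : ∀ j < k, ∀ r₁ r₂ : ℝ, 0 < r₁ → r₁ ≤ r₂ →
      VV τ e j r₂ - VV τ e j r₁ = ∫ t in r₁..r₂, PP k τ e j t / t ^ (2 * k - 2) := by
    intro j hj r₁ r₂ h1 h2
    have h3 := ((hc j hj).2.2 r₁ r₂ h1 h2).2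
    rw [hN] at h3
    have h4 : VV τ e j r₂ - VV τ e j r₁ = cc n j * (gj τ e j r₂ - gj τ e j r₁) := by
      simp only [VV]; ring
    rw [h4, h3, ← intervalIntegral.integral_const_mul]
    congr 1
    ext t
    simp only [PP]
    ring
  refine ⟨hk, ?_, ?_, ?_, hpint, hder, ?_, ?_, mm_mono τ, ?_, ?_, fun r _ => mm_left τ r,
    mm_zero τ h0⟩
  · intro j hj r hr
    have h1 := cc_pos hnk hj
    have h2 := gj_nonneg τ e j r
    have := mul_nonneg h1.le h2
    simp only [VV]
    linarith
  · intro j hj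
    set T : ℝ := max (R + 1) 1 with hTdef
    have hT1 : 1 ≤ T := le_max_right _ _
    have hTR : R + 1 ≤ T := le_max_left _ _
    have hI := hpint j hj 1 T one_pos hT1
    refine ⟨max (|VV τ e j 1| + ∫ t in (1 : ℝ)..T, |PP k τ e j t / t ^ (2 * k - 2)|)
      (cc n j * (om j 1 * τ.real univ)), ?_⟩
    intro r hr
    rcases le_total r T with hrT | hrT
    · refine le_trans ?_ (le_max_left _ _)
      have h1 := hder j hj 1 r one_pos hr
      have h2 : |∫ t in (1 : ℝ)..r, PP k τ e j t / t ^ (2 * k - 2)| ≤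
          ∫ t in (1 : ℝ)..r, |PP k τ e j t / t ^ (2 * k - 2)| :=
        intervalIntegral.abs_integral_le_integral_abs hr
      have h3 : ∫ t in (1 : ℝ)..r, |PP k τ e j t / t ^ (2 * k - 2)| ≤
          ∫ t in (1 : ℝ)..T, |PP k τ e j t / t ^ (2 * k - 2)| := by
        refine intervalIntegral.integral_mono_interval le_rfl hr hrT ?_ hI.abs
        exact Eventually.of_forall fun t => abs_nonneg _
      have h4 := le_abs_self (VV τ e j 1)
      have h5 := le_abs_self (∫ t in (1 : ℝ)..r, PP k τ e j t / t ^ (2 * k - 2))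
      linarith
    · refine le_trans ?_ (le_max_right _ _)
      have h1 := cc_pos hnk hj
      have h2 : gj τ e j r ≤ om j 1 * τ.real univ := by
        have hle : ∀ᵐ y ∂τ, om j (dist (r • e) y) ≤ om j 1 := by
          have hae : ∀ᵐ y ∂τ, y ∈ closedBall (0 : En n) R := by
            rw [ae_iff]
            exact hR
          filter_upwards [hae] with y hy
          refine om_le j one_pos ?_
          have h3 : ‖y‖ ≤ R := by simpa using hy
          have h4 : ‖r • e‖ = r := by
            rw [norm_smul, he, mul_one, Real.norm_of_nonneg (by linarith)]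
          have h5 : ‖r • e‖ - ‖y‖ ≤ ‖r • e - y‖ := norm_sub_norm_le _ _
          rw [dist_eq_norm]
          linarith
        have := integral_mono_ae ((hc j hj).1 r (by linarith)) (integrable_const (om j 1)) hle
        simpa [gj, mul_comm] using this
      have h3 := mul_le_mul_of_nonneg_left h2 h1.le
      simp only [VV]
      linarith
  · intro j hj r hr
    have h1 := ((hc j hj).2.1 r hr).const_mul (cc n j)
    have h2 : IntervalIntegrable (fun u : ℝ => u ^ (n - 1)) volume 0 r :=
      (continuous_pow _).intervalIntegrable _ _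
    rw [← hN]
    refine (h1.sub h2).congr ?_
    intro t _
    simp only [VV]
    ring
  · intro j hj r hr
    have h1 : cc n (j + 1) = cc n j * ((n : ℝ) - 1 - 2 * j) := cc_succ n j
    simp only [PP, pj, if_pos hj, sub_zero]
    rw [← intervalIntegral.integral_const_mul, hN]
    congr 1
    ext u
    simp only [VV, h1]
    ring
  · intro r hr
    have h1 : ¬ (k - 1 + 1 < k) := by omega
    have h2 : ((k - 1 : ℕ) : ℝ) = k - 1 := by
      rw [Nat.cast_sub (by omega)]; simp
    have h3 : (n : ℝ) - 1 - 2 * ((k - 1 : ℕ) : ℝ) = 0 := by rw [h2]; linarith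
    have h4 := (homi n k hk hnk).2.2.1 (k - 1) (by omega)
    simp only [PP, pj, if_neg h1, mm]
    rw [mul_sub, ← mul_assoc, h4, ← intervalIntegral.integral_const_mul, hN]
    congr 1
    congr 1
    ext u
    simp only [VV, h3]
    ring
  · intro r
    unfold mm
    positivity
  · refine ⟨((n - 1).factorial : ℝ) * τ.real univ, fun r => ?_⟩
    unfold mm
    exact mul_le_mul_of_nonneg_left (measureReal_mono (subset_univ _)) (by positivity)

end Pool.Agent.Helper5.OB
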