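import Pool.Agent.Helper73.OB.GoalsA

/-!
# Packet PACK (MP_fc0446_an, project OB).
-/

set_option autoImplicit false

open MeasureTheory Set
open scoped ENNReal

namespace Pool.Agent.Helper5.OB

open Pool.Agent.Helper73.OB

theorem pack_coe (o : Bit) (r : unitInterval) : (pack o r : ℝ) = ((o.val : ℝ) + r) / 2 := rfl

theorem meas_pack1 (o : Bit) : Measurable (fun r : unitInterval => pack o r) := by
  apply Measurable.subtype_mk
  exact (measurable_const.add measurable_subtype_coe).div_const 2

theorem meas_pack : Measurable (fun x : Bit × unitInterval => pack x.1 x.2) :=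
  measurable_from_prod_countable_right fun o => meas_pack1 o

theorem meas_unpack : Measurable unpack := by
  have hs : MeasurableSet {q : unitInterval | (q : ℝ) < 1 / 2} :=
    measurableSet_lt measurable_subtype_coe measurable_const
  have h1 : Measurable fun q : unitInterval =>
      if (q : ℝ) < 1 / 2 then ((0 : Bit), Set.projIcc (0 : ℝ) 1 zero_le_one (2 * q))
        else ((1 : Bit), Set.projIcc (0 : ℝ) 1 zero_le_one (2 * q - 1)) := by
    refine Measurable.ite hs ?_ ?_
    · exact measurable_const.prodMk (continuous_projIcc.measurable.comp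
        (measurable_const.mul measurable_subtype_coe))
    · exact measurable_const.prodMk (continuous_projIcc.measurable.comp
        ((measurable_const.mul measurable_subtype_coe).sub measurable_const))
  have h2 : unpack = fun q : unitInterval =>
      if (q : ℝ) < 1 / 2 then ((0 : Bit), Set.projIcc (0 : ℝ) 1 zero_le_one (2 * q))
        else ((1 : Bit), Set.projIcc (0 : ℝ) 1 zero_le_one (2 * q - 1)) := by
    funext q
    unfold unpack
    have q0 := q.2.1
    have q1 := q.2.2
    split_ifs with h
    · refine Prod.ext rfl ?_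
      simp only
      rw [Set.projIcc_of_mem zero_le_one (⟨by linarith, by linarith⟩ :
        2 * (q : ℝ) ∈ Set.Icc (0 : ℝ) 1)]
    · refine Prod.ext rfl ?_
      simp only
      rw [Set.projIcc_of_mem zero_le_one (⟨by linarith, by linarith⟩ :
        2 * (q : ℝ) - 1 ∈ Set.Icc (0 : ℝ) 1)]
  rw [h2]
  exact h1

theorem bit_cases (o : Bit) : o = 0 ∨ o = 1 := by
  revert o
  decide

theorem val_zero' : ((0 : Bit).val : ℝ) = 0 := by
  norm_num [ZMod.val_zero]

theorem val_one' : ((1 : Bit).val : ℝ) = 1 := by
  have : (1 : Bit).val = 1 := rfl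
  rw [this]
  norm_num

theorem unpack_pack (o : Bit) (r : unitInterval) (hr : (r : ℝ) < 1) : unpack (pack o r) = (o, r) := by
  have r0 := r.2.1
  rcases bit_cases o with rfl | rfl
  · have h : ((pack 0 r : unitInterval) : ℝ) < 1 / 2 := by
      rw [pack_coe, val_zero']
      linarith
    unfold unpack
    rw [dif_pos h]
    refine Prod.ext rfl (Subtype.ext ?_)
    show 2 * ((pack 0 r : unitInterval) : ℝ) = r
    rw [pack_coe, val_zero']
    ring
  · have h : ¬ ((pack 1 r : unitInterval) : ℝ) < 1 / 2 := by
      rw [pack_coe, val_one']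
      linarith
    unfold unpack
    rw [dif_neg h]
    refine Prod.ext rfl (Subtype.ext ?_)
    show 2 * ((pack 1 r : unitInterval) : ℝ) - 1 = r
    rw [pack_coe, val_one']
    ring

theorem fair_prod : fair.prod uni =
    (2⁻¹ : ℝ≥0∞) • ((Measure.dirac (0 : Bit)).prod uni + (Measure.dirac (1 : Bit)).prod uni) := by
  unfold fair
  rw [Measure.prod_smul_left, Measure.add_prod]

theorem map_dirac_prod (o : Bit) :
    ((Measure.dirac o).prod uni).map (fun x : Bit × unitInterval => pack x.1 x.2) =
      uni.map (fun r => pack o r) := by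
  rw [Measure.dirac_prod, Measure.map_map meas_pack (by fun_prop)]
  rfl

theorem map_pack : (fair.prod uni).map (fun x : Bit × unitInterval => pack x.1 x.2) = uni := by
  rw [fair_prod, Measure.map_smul, Measure.map_add _ _ meas_pack, map_dirac_prod, map_dirac_prod]
  have h0 : IsProbabilityMeasure (uni.map (fun r => pack 0 r)) :=
    Measure.isProbabilityMeasure_map (meas_pack1 0).aemeasurable
  have h1 : IsProbabilityMeasure (uni.map (fun r => pack 1 r)) :=
    Measure.isProbabilityMeasure_map (meas_pack1 1).aemeasurable
  have : IsFiniteMeasure ((2⁻¹ : ℝ≥0∞) • (uni.map (fun r => pack 0 r) +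
      uni.map (fun r => pack 1 r))) := by
    refine Measure.smul_finite _ ?_
    simp
  refine Measure.ext_of_Iic _ _ fun a => ?_
  rw [Measure.smul_apply, Measure.add_apply, Measure.map_apply (meas_pack1 0) measurableSet_Iic,
    Measure.map_apply (meas_pack1 1) measurableSet_Iic, unitInterval.volume_Iic, smul_eq_mul]
  have a0 := a.2.1
  have a1 := a.2.2
  by_cases ha : (a : ℝ) < 1 / 2
  · have e0 : (fun r : unitInterval => pack 0 r) ⁻¹' Set.Iic a =
        Set.Iic (⟨2 * a, by constructor <;> linarith⟩ : unitInterval) := by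
      ext r
      simp only [Set.mem_preimage, Set.mem_Iic, ← Subtype.coe_le_coe, pack_coe, val_zero']
      constructor <;> intro h <;> linarith
    have e1 : (fun r : unitInterval => pack 1 r) ⁻¹' Set.Iic a = ∅ := by
      ext r
      simp only [Set.mem_preimage, Set.mem_Iic, ← Subtype.coe_le_coe, pack_coe, val_one',
        Set.mem_empty_iff_false, iff_false]
      have := r.2.1
      intro h
      linarith
    rw [e0, e1, unitInterval.volume_Iic, measure_empty, add_zero]
    show 2⁻¹ * ENNReal.ofReal (2 * (a : ℝ)) = ENNReal.ofReal a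
    rw [ENNReal.ofReal_mul (by norm_num), ← mul_assoc]
    rw [show ENNReal.ofReal 2 = 2 by norm_num, ENNReal.inv_mul_cancel (by norm_num) (by norm_num),
      one_mul]
  · have e0 : (fun r : unitInterval => pack 0 r) ⁻¹' Set.Iic a = Set.univ := by
      ext r
      simp only [Set.mem_preimage, Set.mem_Iic, ← Subtype.coe_le_coe, pack_coe, val_zero',
        Set.mem_univ, iff_true]
      have := r.2.2
      linarith
    have e1 : (fun r : unitInterval => pack 1 r) ⁻¹' Set.Iic a =
        Set.Iic (⟨2 * a - 1, by constructor <;> linarith⟩ : unitInterval) := by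
      ext r
      simp only [Set.mem_preimage, Set.mem_Iic, ← Subtype.coe_le_coe, pack_coe, val_one']
      constructor <;> intro h <;> linarith
    rw [e0, e1, unitInterval.volume_Iic, measure_univ]
    show 2⁻¹ * (1 + ENNReal.ofReal (2 * (a : ℝ) - 1)) = ENNReal.ofReal a
    rw [← ENNReal.ofReal_one, ← ENNReal.ofReal_add (by norm_num) (by linarith)]
    rw [show (1 : ℝ) + (2 * (a : ℝ) - 1) = 2 * a by ring, ENNReal.ofReal_mul (by norm_num),
      ← mul_assoc]
    rw [show ENNReal.ofReal 2 = 2 by norm_num, ENNReal.inv_mul_cancel (by norm_num) (by norm_num),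
      one_mul]

theorem pack : Pool.Agent.Helper73.OB.S_PACK :=
  ⟨meas_pack, meas_unpack, unpack_pack, map_pack⟩

end Pool.Agent.Helper5.OB
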