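import Pool.Agent.Helper73.OB.GoalsA
import Pool.Agent.Helper73.OB.GoalsB

/-!
Packet STEP of project OB (MP_fc0446_an): the step theorem from the other parts.
-/

open MeasureTheory ProbabilityTheory
open scoped ENNReal

namespace Pool.Agent.Helper5.OB

open Pool.Agent.Helper73.OB

/-- The law of the root value of a typed Markov system. -/
theorem TM_law (hprb : S_PRB) {S X : Type} [MeasurableSpace X] {β : S → S} {p : Bit → S} {δ : Bit}
    {e : unitInterval} {μ : Measure X} {f : S → X → X} {s : X → Sk} (h : TM β p δ e μ f s) :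
    MeasurePreserving s μ (kap e) := by
  have : IsProbabilityMeasure (kap e) := (hprb.2 e).2.1
  have hr : Red β ([] : List S) ∧ IsH p ([] : List S) := by
    refine ⟨List.isChain_nil, ?_⟩
    intro a ha
    simp at ha
  have h1 := h.cos
  have h2 : MeasurePreserving (fun ω : HW β p → Sk => ω ⟨[], hr⟩)
      (Measure.infinitePi fun _ : HW β p => kap e) (kap e) :=
    measurePreserving_eval_infinitePi (fun _ : HW β p => kap e) ⟨[], hr⟩
  exact h2.comp h1

theorem step (hiso : S_ISO) (hrelab : S_RELAB) (hcod : S_COD) (hexch : S_EXCH) (hex : S_EX)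
    (hrec : S_REC) (hgen : S_GEN) (hback : S_BACK) (htail : S_TAIL1) (hprb : S_PRB) : S_STEP := by
  intro S _ βZ βD p frZ frD hβ hab X _ _ μ _ f l hgood e he
  have : IsProbabilityMeasure (lawL e) := (hprb.2 e).2.2.1
  have : NullSingletonClass (lawL e) := (hprb.2 e).2.2.2.2.2.1
  obtain ⟨j, j', hj, hj', hjj, hjj'⟩ := hiso Lb (lawL e)
  -- labels in Lb
  obtain ⟨hbL, -, hgL⟩ := hrelab S X unitInterval Lb βZ μ f volume (lawL e) j' j hgood.sys hj' hj
    hjj' l hgood.bnl
  have hgL' := hgL hgood.gen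
  -- the skeleton
  obtain ⟨htm, henc⟩ := hcod S βZ p 0 frZ e he X μ f hgood.sys (fun x => j' (l x)) hbL
  obtain ⟨s, hs⟩ : ∃ s : X → Sk, s = dec p 0 f (fun x => j' (l x)) := ⟨_, rfl⟩
  rw [← hs] at htm henc
  obtain ⟨g, K, K', G, hE, hT⟩ := hexch S βZ βD p frZ frD hβ hab e X μ f hgood.sys s htm
  have htm' := hex S βZ βD p e X μ f g s K K' G hE htm
  obtain ⟨hb', hd'⟩ := hrec S βD p 1 frD e he X μ g hE.sysD s htm'
  have hg' := hgen S βZ βD p e X μ f g s K K' G hE (fun x => j' (l x)) hbL.1 hgL' henc hd'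
  obtain ⟨hb2, -, hg2⟩ := hrelab S X Lb unitInterval βD μ g (lawL e) volume j j' hE.sysD hj hj'
    hjj (enc p 1 g s) hb'
  obtain ⟨-, -, -, hB4, hB5⟩ := hback S βZ βD p X μ f g s K K' G hE
  have hms : MeasurableSet {a : Sk | a.1 = true} :=
    measurable_fst (MeasurableSet.singleton true)
  refine ⟨g, fun x => j (enc p 1 g s x), {x | (s x).1 = true}, G, ⟨hE.sysD, hb2, hg2 hg'⟩,
    hE.meas hms, ?_, hE.G_meas, hE.G_full, fun x hx a => ⟨hE.G_f a x hx, hE.G_g a x hx⟩, hB4, ?_,
    ?_⟩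
  · have h1 := (TM_law hprb htm).measure_preimage hms.nullMeasurableSet
    have h2 := (hprb.2 e).2.2.2.2.2.2.1
    rw [h2] at h1
    exact h1
  · intro x hx hM ha
    apply hB5 x hx
    · simpa using hM
    · intro a
      simpa using ha a
  · intro h3
    exact htail S βZ βD p e X μ f g s K K' G hE htm hT h3

end Pool.Agent.Helper5.OB
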